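import Mathlib
import Pool.Agent.H84.FanS

namespace Pool.Agent.Results.MP_2a55c9_gt.No

open Pool.Agent.H84.Fan Pool.Agent.H84.Fan.Six

/-- The homeomorphism group of `X` acts on `X` with exactly six orbits. -/
def SixOrbits (X : Type) [TopologicalSpace X] : Prop :=
  ∃ a : Fin 6 → X, (∀ i j, (∃ h : X ≃ₜ X, h (a i) = a j) → i = j) ∧
    ∀ x, ∃ i, ∃ h : X ≃ₜ X, h (a i) = x

theorem result : ∃ (F G : Type) (_ : MetricSpace F) (_ : MetricSpace G) (s : F) (t : G),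
    (IsFan s ∧ Smooth s ∧ SixOrbits F) ∧ (IsFan t ∧ Smooth t ∧ SixOrbits G) ∧ IsEmpty (F ≃ₜ G) :=
  ⟨FF Unit, FF Bool, inferInstance, inferInstance, (PF Unit).t, (PF Bool).t,
    ⟨(PF Unit).isFan, (PF Unit).smooth, six⟩, ⟨(PF Bool).isFan, (PF Bool).smooth, six⟩, nonhomeo⟩

end Pool.Agent.Results.MP_2a55c9_gt.No
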